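import Pool.Agent.N89.HX.Stm

/-!
# Project HX, piece TSZ: a twisted lemma of Schwartz and Zippel (helper572)
-/

set_option autoImplicit false

namespace Pool.Agent.N572.HX.TSZ

open Polynomial Pool.Agent.N89.HX

/-- the twisted vectors of Teichmüller type span -/
theorem span_top (k Ω : Type) [Field k] [Fintype k] [Field Ω] [IsAlgClosed Ω] [Algebra k Ω]
    (e : ℕ) (σ : Equiv.Perm (Fin e)) :
    Submodule.span Ω {ω : Fin e → Ω | ∀ i, ω i ^ Fintype.card k = ω (σ i)} = ⊤ := by
  classical
  by_contra hne
  obtain ⟨f, hf0, hf⟩ := Submodule.exists_le_ker_of_lt_top _ (lt_top_iff_ne_top.2 hne)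
  apply hf0
  set q := Fintype.card k with hq
  have hq1 : 1 < q := Fintype.one_lt_card
  set N := orderOf σ with hN
  have hN0 : 0 < N := orderOf_pos σ
  -- the characteristic
  obtain ⟨p, hp⟩ := CharP.exists k
  have hΩ : CharP Ω p := charP_of_injective_algebraMap' k p
  obtain ⟨n, hpp, hcard⟩ := FiniteField.card k p
  have hpq : p ∣ q ^ N := by
    rw [hq, hcard]
    exact dvd_pow (dvd_pow_self p n.ne_zero) hN0.ne'
  have hφ : ∀ x y : Ω, (x + y) ^ q = x ^ q + y ^ q := fun x y =>
    map_add (FiniteField.frobeniusAlgHom k Ω) x y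
  -- the values of `f` on the unit vectors vanish
  have key : ∀ i : Fin e, f (Pi.single i 1) = 0 := by
    intro i
    set lam : Fin e → Ω := fun j => f (Pi.single j 1) with hlam
    set g : Polynomial Ω := ∑ t ∈ Finset.range N, C (lam ((σ ^ t) i)) * X ^ (q ^ t) with hg
    have hinj : ∀ s t : ℕ, q ^ s = q ^ t → s = t := fun s t h => Nat.pow_right_injective hq1 h
    have hgcoeff : g.coeff 1 = lam i := by
      rw [hg, finset_sum_coeff, Finset.sum_eq_single 0]
      · simp
      · intro t _ ht
        rw [coeff_C_mul, coeff_X_pow, if_neg, mul_zero]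
        intro h
        exact ht (hinj t 0 (by rw [pow_zero]; exact h.symm))
      · intro h
        exact absurd (Finset.mem_range.2 hN0) h
    suffices hg0 : g = 0 by
      rw [hg0, coeff_zero] at hgcoeff
      exact hgcoeff.symm
    by_contra hg0
    have hdeg : g.natDegree ≤ q ^ (N - 1) := by
      rw [hg]
      refine natDegree_sum_le_of_forall_le _ _ fun t ht => ?_
      refine (natDegree_C_mul_X_pow_le _ _).trans ?_
      exact Nat.pow_le_pow_right (by omega) (by have := Finset.mem_range.1 ht; omega)
    -- the roots of `X ^ (q ^ N) - X`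
    set h : Polynomial Ω := X ^ (q ^ N) - X with hh
    have hqN : 1 < q ^ N := Nat.one_lt_pow hN0.ne' hq1
    have hhdeg : h.natDegree = q ^ N := FiniteField.X_pow_card_sub_X_natDegree_eq Ω hqN
    have hsep : h.Separable := galois_poly_separable p _ hpq
    have hcardroots : h.roots.toFinset.card = q ^ N := by
      rw [Multiset.toFinset_card_of_nodup (nodup_roots hsep), ← hhdeg]
      exact (IsAlgClosed.splits h).natDegree_eq_card_roots.symm
    have hsub : h.roots.toFinset ⊆ g.roots.toFinset := by
      intro θ hθ
      rw [Multiset.mem_toFinset, mem_roots hsep.ne_zero, IsRoot.def, hh, eval_sub, eval_pow, eval_X,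
        sub_eq_zero] at hθ
      rw [Multiset.mem_toFinset, mem_roots hg0, IsRoot.def]
      -- the twisted vector
      set w : Fin e → Ω := fun j => ∑ t ∈ Finset.range N, if (σ ^ t) i = j then θ ^ (q ^ t) else 0
        with hw
      have hwV : ∀ j, w j ^ q = w (σ j) := by
        intro j
        have h1 : w j ^ q = ∑ t ∈ Finset.range N,
            (if (σ ^ t) i = j then θ ^ (q ^ t) else 0) ^ q := by
          rw [hw]
          exact map_sum (FiniteField.frobeniusAlgHom k Ω) _ _
        set F : ℕ → Ω := fun t => if (σ ^ t) i = σ j then θ ^ (q ^ t) else 0 with hF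
        have h2 : ∀ t, (if (σ ^ t) i = j then θ ^ (q ^ t) else 0) ^ q = F (t + 1) := by
          intro t
          rw [hF]
          have h3 : (σ ^ (t + 1)) i = σ ((σ ^ t) i) := by
            rw [pow_succ', Equiv.Perm.mul_apply]
          simp only [h3, σ.injective.eq_iff]
          split_ifs
          · rw [← pow_mul, ← pow_succ]
          · exact zero_pow (by omega)
        have h4 : F N = F 0 := by
          rw [hF]
          simp only [hN, pow_orderOf_eq_one, pow_zero, pow_one]
          rw [← hN, hθ]
        have h5 : ∑ t ∈ Finset.range N, F (t + 1) = ∑ t ∈ Finset.range N, F t := by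
          have h6 := Finset.sum_range_succ F N
          have h7 := Finset.sum_range_succ' F N
          rw [h6, h4] at h7
          exact (add_right_cancel h7).symm
        rw [h1, Finset.sum_congr rfl (fun t _ => h2 t), h5]
      have hfw : f w = 0 := hf (Submodule.subset_span hwV)
      have hfw2 : f w = g.eval θ := by
        have h1 : w = ∑ j, w j • (Pi.single j 1 : Fin e → Ω) := by
          ext j
          simp [Finset.sum_apply, Pi.single_apply]
        rw [h1, map_sum, hg, eval_finset_sum]
        simp only [map_smul, smul_eq_mul, eval_mul, eval_C, eval_pow, eval_X]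
        have h2 : ∀ j, w j * f (Pi.single j 1) =
            ∑ t ∈ Finset.range N, if (σ ^ t) i = j then lam j * θ ^ (q ^ t) else 0 := by
          intro j
          rw [hw, Finset.sum_mul]
          refine Finset.sum_congr rfl fun t _ => ?_
          split_ifs
          · rw [mul_comm]
          · rw [zero_mul]
        simp only [h2]
        rw [Finset.sum_comm]
        refine Finset.sum_congr rfl fun t _ => ?_
        rw [Finset.sum_ite_eq]
        simp
      rw [← hfw2]; exact hfw
    have h1 := Finset.card_le_card hsub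
    rw [hcardroots] at h1
    have h2 : g.roots.toFinset.card ≤ g.natDegree :=
      (Multiset.toFinset_card_le _).trans (card_roots' g)
    have h3 : q ^ (N - 1) < q ^ N := Nat.pow_lt_pow_right hq1 (by omega)
    omega
  ext i
  simpa using key i

/-- a basis of twisted vectors -/
theorem exists_basis (k Ω : Type) [Field k] [Fintype k] [Field Ω] [IsAlgClosed Ω] [Algebra k Ω]
    (e : ℕ) (σ : Equiv.Perm (Fin e)) :
    ∃ (ι : Type) (_ : Fintype ι) (b : Module.Basis ι Ω (Fin e → Ω)),
      ∀ s i, b s i ^ Fintype.card k = b s (σ i) := by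
  classical
  have hspan := span_top k Ω e σ
  have hbV : ∀ i, Module.Basis.ofSpan hspan.ge i ∈
      {ω : Fin e → Ω | ∀ i, ω i ^ Fintype.card k = ω (σ i)} := fun i =>
    Module.Basis.ofSpan_subset hspan.ge ⟨i, rfl⟩
  have hfin := Module.Finite.finite_basis (Module.Basis.ofSpan hspan.ge)
  exact ⟨_, Fintype.ofFinite _, Module.Basis.ofSpan hspan.ge, fun s i => hbV s i⟩

/-- substitution of polynomials of degree at most one -/
theorem totalDegree_subst {ι κ R S : Type} [CommRing R] [CommRing S] [Nontrivial S]
    (φ : R →+* S) (L : ι → MvPolynomial κ S) (hL : ∀ i, (L i).totalDegree ≤ 1)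
    (Δ : MvPolynomial ι R) :
    (MvPolynomial.eval₂ (MvPolynomial.C.comp φ) L Δ).totalDegree ≤ Δ.totalDegree := by
  rw [MvPolynomial.eval₂_eq]
  refine MvPolynomial.totalDegree_finsetSum_le fun d hd => ?_
  refine (MvPolynomial.totalDegree_mul _ _).trans ?_
  have h1 : ((MvPolynomial.C.comp φ) (MvPolynomial.coeff d Δ) : MvPolynomial κ S).totalDegree = 0 := by
    rw [RingHom.comp_apply, MvPolynomial.totalDegree_C]
  rw [h1, zero_add]
  refine (MvPolynomial.totalDegree_finsetProd _ _).trans ?_
  have h2 : ∑ i ∈ d.support, (L i ^ d i).totalDegree ≤ ∑ i ∈ d.support, d i := by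
    refine Finset.sum_le_sum fun i _ => ?_
    refine (MvPolynomial.totalDegree_pow _ _).trans ?_
    calc d i * (L i).totalDegree ≤ d i * 1 := Nat.mul_le_mul le_rfl (hL i)
      _ = d i := mul_one _
  refine h2.trans ?_
  exact MvPolynomial.le_totalDegree hd

/-- TSZ -/
theorem main : S_TSZ := by
  classical
  intro k Ω _ _ _ _ _ e m σ Δ hΔ hdeg
  by_contra hcon
  push Not at hcon
  set q := Fintype.card k with hq
  obtain ⟨ι, _, b, hbV⟩ := exists_basis k Ω e σ
  set L : Fin m ⊕ Fin e → MvPolynomial (Fin m ⊕ ι) Ω := Sum.elim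
    (fun j => MvPolynomial.X (Sum.inl j))
    (fun i => ∑ c : ι, MvPolynomial.C (b c i) * MvPolynomial.X (Sum.inr c)) with hL
  set G : MvPolynomial (Fin m ⊕ ι) Ω :=
    MvPolynomial.eval₂ (MvPolynomial.C.comp (algebraMap k Ω)) L Δ with hG
  have hLdeg : ∀ i, (L i).totalDegree ≤ 1 := by
    rintro (j | i)
    · rw [hL, Sum.elim_inl]
      exact (MvPolynomial.totalDegree_X _).le
    · rw [hL, Sum.elim_inr]
      refine MvPolynomial.totalDegree_finsetSum_le fun c _ => ?_
      refine (MvPolynomial.totalDegree_mul _ _).trans ?_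
      rw [MvPolynomial.totalDegree_C, MvPolynomial.totalDegree_X]
  have hGdeg : G.totalDegree < q := (totalDegree_subst _ L hLdeg Δ).trans_lt hdeg
  -- values of `G`
  have hGeval : ∀ x : Fin m ⊕ ι → Ω, MvPolynomial.eval x G =
      MvPolynomial.eval₂ (algebraMap k Ω) (Sum.elim (fun j => x (Sum.inl j))
        (fun i => ∑ c : ι, x (Sum.inr c) * b c i)) Δ := by
    intro x
    rw [hG, MvPolynomial.hom_eval₂]
    congr 1
    · ext a
      simp
    · funext i
      rcases i with j | i
      · simp [hL]
      · simp [hL, mul_comm]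
  have hVsum : ∀ c : ι → k, ∀ i, (∑ s : ι, algebraMap k Ω (c s) * b s i) ^ q =
      ∑ s : ι, algebraMap k Ω (c s) * b s (σ i) := by
    intro c i
    have h1 : (∑ s : ι, algebraMap k Ω (c s) * b s i) ^ q =
        ∑ s : ι, (algebraMap k Ω (c s) * b s i) ^ q :=
      map_sum (FiniteField.frobeniusAlgHom k Ω) _ _
    rw [h1]
    refine Finset.sum_congr rfl fun s _ => ?_
    rw [mul_pow, hbV s i, ← map_pow, FiniteField.pow_card]
  have hG0 : G = 0 := by
    refine MvPolynomial.eq_zero_of_eval_zero_at_prod_finset G
      (fun _ => Finset.univ.image (algebraMap k Ω)) ?_ ?_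
    · intro i
      rw [Finset.card_image_of_injective _ (algebraMap k Ω).injective, Finset.card_univ]
      exact (MvPolynomial.degreeOf_le_totalDegree G i).trans_lt hGdeg
    · intro x hx
      have hx' : ∀ i, ∃ c : k, algebraMap k Ω c = x i := by
        intro i
        obtain ⟨c, _, hc⟩ := Finset.mem_image.1 (hx i)
        exact ⟨c, hc⟩
      choose c hc using hx'
      have h1 := hcon (fun i => ∑ s : ι, algebraMap k Ω (c (Sum.inr s)) * b s i)
        (hVsum (fun s => c (Sum.inr s)))
      have h2 := congrArg (MvPolynomial.eval (fun j => x (Sum.inl j))) h1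
      rw [map_zero, MvPolynomial.hom_eval₂] at h2
      rw [hGeval, ← h2]
      congr 1
      · ext a
        simp
      · funext i
        rcases i with j | i
        · simp
        · simp [hc]
  -- hence `Δ` vanishes everywhere
  apply hΔ
  apply MvPolynomial.map_injective (algebraMap k Ω) (algebraMap k Ω).injective
  rw [map_zero]
  apply MvPolynomial.funext
  intro x
  rw [map_zero, MvPolynomial.eval_map]
  have h1 := hGeval (Sum.elim (fun j => x (Sum.inl j))
    (fun s => b.repr (fun i => x (Sum.inr i)) s))
  rw [hG0, map_zero] at h1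
  rw [h1]
  congr 1
  funext i
  rcases i with j | i
  · simp
  · simp only [Sum.elim_inr]
    have h2 := b.sum_repr (fun i => x (Sum.inr i))
    have h3 := congrFun h2 i
    rw [Finset.sum_apply] at h3
    simpa using h3.symm

end Pool.Agent.N572.HX.TSZ
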