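import Pool.Agent.N89.HX.Stm

/-!
# Project HX, piece GRP: all cycle types imply the full symmetric group (helper572)
-/

set_option autoImplicit false

namespace Pool.Agent.N572.HX.GRP

open Polynomial Pool.Agent.N89.HX

/-- a proper subgroup of a finite group does not meet all the conjugacy classes (Jordan) -/
theorem top_of_conj {G : Type*} [Group G] [Finite G] (H : Subgroup G)
    (h : ∀ g : G, ∃ c : G, c⁻¹ * g * c ∈ H) : H = ⊤ := by
  set F : (G ⧸ H) × H → G := fun z => z.1.out * z.2 * z.1.out⁻¹ with hF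
  have hsurj : Function.Surjective F := by
    intro g
    obtain ⟨c, hc⟩ := h g
    obtain ⟨k, hk⟩ := QuotientGroup.mk_out_eq_mul H c
    refine ⟨((c : G ⧸ H), ⟨(k : G)⁻¹ * (c⁻¹ * g * c) * k,
      H.mul_mem (H.mul_mem (H.inv_mem k.2) hc) k.2⟩), ?_⟩
    simp only [hF]
    rw [hk]
    group
  have hcard : Nat.card ((G ⧸ H) × H) ≤ Nat.card G := by
    rw [Nat.card_prod, ← Subgroup.card_eq_card_quotient_mul_card_subgroup]
  have hbij := hsurj.bijective_of_nat_card_le hcard
  rw [Subgroup.eq_top_iff']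
  intro g
  have h1 : F ((g : G ⧸ H), 1) = F (((1 : G) : G ⧸ H), 1) := by
    simp [hF]
  have h2 := hbij.1 h1
  have h3 : ((g : G) : G ⧸ H) = ((1 : G) : G ⧸ H) := congrArg Prod.fst h2
  rw [eq_comm, QuotientGroup.eq] at h3
  simpa using h3

/-- GRP -/
theorem main : S_GRP := by
  classical
  intro K _ e f he hyp
  set M := AlgebraicClosure K with hM
  set p : K[X] := pol f with hp
  obtain ⟨x0, τ0, hx0, -⟩ := hyp 1
  obtain ⟨hlast, hinj0, hfac0⟩ := hx0
  have hlast' : algebraMap K M (f (Fin.last e)) ≠ 0 := by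
    rw [Ne, map_eq_zero_iff _ (algebraMap K M).injective]; exact hlast
  have hdeg : p.natDegree = e := by
    have h1 : (p.map (algebraMap K M)).natDegree = p.natDegree := natDegree_map _
    rw [← h1, hfac0, natDegree_C_mul hlast', natDegree_prod_of_monic _ _ (fun i _ => monic_X_sub_C _)]
    simp
  have hsep : p.Separable := by
    rw [← separable_map (algebraMap K M), hfac0]
    have hu : IsUnit (C (algebraMap K M (f (Fin.last e))) : M[X]) :=
      isUnit_C.2 (isUnit_iff_ne_zero.2 hlast')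
    obtain ⟨v, hv⟩ := hu
    rw [← hv, mul_comm]
    have h1 : (∏ i, (X - C (x0 i)) : M[X]).Separable :=
      separable_prod_X_sub_C_iff.2 hinj0
    exact h1.mul_unit v.isUnit
  have hp0 : p ≠ 0 := hsep.ne_zero
  -- the roots
  have hroot : ∀ x : Fin e → M, Roots (algebraMap K M) f x →
      ∀ y : M, y ∈ p.rootSet M ↔ ∃ i, x i = y := by
    intro x hx y
    rw [mem_rootSet, aeval_def, ← eval_map, hx.2.2, eval_mul, eval_C, eval_prod, mul_eq_zero,
      Finset.prod_eq_zero_iff]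
    constructor
    · rintro ⟨_, h | ⟨i, _, hi⟩⟩
      · exact absurd h hlast'
      · rw [eval_sub, eval_X, eval_C, sub_eq_zero] at hi
        exact ⟨i, hi.symm⟩
    · rintro ⟨i, rfl⟩
      exact ⟨hp0, Or.inr ⟨i, Finset.mem_univ i, by simp⟩⟩
  have hex : ∀ x : Fin e → M, Roots (algebraMap K M) f x →
      ∃ ex : Fin e ≃ p.rootSet M, ∀ i, (ex i : M) = x i := by
    intro x hx
    refine ⟨Equiv.ofBijective (fun i => ⟨x i, (hroot x hx _).2 ⟨i, rfl⟩⟩) ⟨?_, ?_⟩, fun i => rfl⟩
    · intro i j hij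
      exact hx.2.1 (congrArg Subtype.val hij)
    · rintro ⟨y, hy⟩
      obtain ⟨i, hi⟩ := (hroot x hx y).1 hy
      exact ⟨i, Subtype.ext hi⟩
  -- the image of the Galois group
  let H : Subgroup (Equiv.Perm (p.rootSet M)) :=
    { carrier := {π | ∃ τ : M ≃ₐ[K] M, ∀ x : p.rootSet M, τ (x : M) = π x}
      mul_mem' := by
        rintro a b ⟨τ, hτ⟩ ⟨τ', hτ'⟩
        refine ⟨τ * τ', fun x => ?_⟩
        rw [AlgEquiv.mul_apply, hτ', hτ, Equiv.Perm.mul_apply]
      one_mem' := ⟨1, fun x => rfl⟩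
      inv_mem' := by
        rintro a ⟨τ, hτ⟩
        refine ⟨τ⁻¹, fun x => ?_⟩
        have h1 := hτ (a⁻¹ x)
        have h2 : a (a⁻¹ x) = x := by
          rw [← Equiv.Perm.mul_apply, mul_inv_cancel, Equiv.Perm.one_apply]
        rw [h2] at h1
        rw [← h1, ← AlgEquiv.mul_apply, inv_mul_cancel, AlgEquiv.one_apply] }
  have hH : H = ⊤ := by
    apply top_of_conj
    intro π
    obtain ⟨e0, he0⟩ := hex x0 ⟨hlast, hinj0, hfac0⟩
    obtain ⟨x, τ, hx, hτ⟩ := hyp ((e0.trans π).trans e0.symm)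
    obtain ⟨ex, hexx⟩ := hex x hx
    refine ⟨ex.symm.trans e0, τ, fun y => ?_⟩
    obtain ⟨i, rfl⟩ := ex.surjective y
    rw [hexx, hτ, ← hexx]
    congr 1
    simp [Equiv.Perm.mul_apply]
  refine ⟨hdeg, hsep, fun π => ?_⟩
  have h1 : π ∈ H := by rw [hH]; exact Subgroup.mem_top π
  exact h1

end Pool.Agent.N572.HX.GRP
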